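import Pool.Agent.J6H99.NX.Stm3
import Pool.Agent.J6H9.NX.G2
import Pool.Agent.J6H64.NX.InfSep

/-!
# First-passage percolation: gradients are not covered by finitely many directions (`d = 2, 3`)
-/

set_option autoImplicit false

open MeasureTheory ProbabilityTheory Filter Topology
open scoped ENNReal

namespace Pool.Agent.J6H23.NX.Cover

open Pool.Agent.J6H99.NX
open Pool.Agent.J6H9.NX (L CC DD supp_iff L_smul isCompact_DD DD_nonempty continuous_dt_left
  L_zero U_L L_le_iff)

variable {e : ℕ} {q : Par} {F : Measure ℝ} [IsProbabilityMeasure F] [MB q F]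

lemma supp_smul {t : ℝ} (ht : 0 < t) {c y : E e} (h : Supp q F c y) : Supp q F c (t • y) := by
  rw [supp_iff] at h ⊢
  exact ⟨h.1, by rw [dt_smul, L_smul ht, h.2]⟩

/-- one tuple of directions covers all gradients -/
lemma cover_all (N : ℕ)
    (h : ∀ s : Finset (E e), (∀ c ∈ s, Grad q F c) → ¬ Unc q F s N) :
    ∃ p : Fin N → E e, (∀ j, p j ≠ 0) ∧ ∀ c, Grad q F c → ∃ j, Supp q F c (p j) := by
  classical
  have hK : IsCompact (Set.univ.pi fun _ : Fin N => {y : E e | nr y = 1}) :=
    isCompact_univ_pi fun _ => Pool.Agent.J6H64.NX.isCompact_sphere_nr e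
  obtain ⟨p, hp1, hp2⟩ := hK.inter_iInter_nonempty
    (fun c : {c : E e // Grad q F c} => ⋃ j : Fin N, {p : Fin N → E e | Supp q F c.1 (p j)})
    (fun c => isClosed_iUnion_of_finite fun j => by
      have h1 : IsClosed {y : E e | Supp q F c.1 y} := Pool.Agent.J6H64.NX.supp_closed c.1
      exact h1.preimage (continuous_apply (A := fun _ : Fin N => E e) j))
    (fun u => by
      have h1 := h (u.image Subtype.val) (fun c hc => by
        obtain ⟨c', -, rfl⟩ := Finset.mem_image.1 hc
        exact c'.2)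
      unfold Unc at h1
      push Not at h1
      obtain ⟨p, hp0, hp⟩ := h1
      refine ⟨fun j => (nr (p j))⁻¹ • p j, ?_, ?_⟩
      · intro j _
        show nr ((nr (p j))⁻¹ • p j) = 1
        have := nr_pos (hp0 j)
        rw [nr_smul, abs_of_pos (inv_pos.2 this), inv_mul_cancel₀ this.ne']
      · simp only [Set.mem_iInter, Set.mem_iUnion]
        intro c hc
        obtain ⟨j, hj⟩ := hp c.1 (Finset.mem_image_of_mem _ hc)
        exact ⟨j, supp_smul (inv_pos.2 (nr_pos (hp0 j))) hj⟩)
  refine ⟨p, fun j hj => ?_, fun c hc => ?_⟩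
  · have h1 : nr (p j) = 1 := hp1 j (Set.mem_univ j)
    rw [hj, nr_zero] at h1
    exact zero_ne_one h1
  · simp only [Set.mem_iInter, Set.mem_iUnion] at hp2
    exact hp2 ⟨c, hc⟩

lemma dt_self_nonneg (v : E e) : 0 ≤ dt v v := by
  unfold dt
  exact Finset.sum_nonneg fun i _ => mul_self_nonneg _

lemma dt_self_eq_zero {v : E e} (h : dt v v = 0) : v = 0 := by
  unfold dt at h
  rw [Finset.sum_eq_zero_iff_of_nonneg fun i _ => mul_self_nonneg _] at h
  funext i
  exact mul_self_eq_zero.1 (h i (Finset.mem_univ i))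

/-- the end points of the set of supporting functionals -/
lemma ends (p : E e) (h : Module.finrank ℝ (vectorSpan ℝ {c : E e | Supp q F c p}) ≤ 1) :
    ∃ a b : E e, Supp q F a p ∧ Supp q F b p ∧
      ∀ c, Supp q F c p → ∀ y, dt c y ≤ max (dt a y) (dt b y) := by
  have hD : {c : E e | Supp q F c p} = DD q F p := by
    ext c
    exact supp_iff
  rw [← collinear_iff_finrank_le_one, collinear_iff_exists_forall_eq_smul_vadd] at h
  obtain ⟨p0, v, hv⟩ := h
  obtain ⟨a, ha, hmax⟩ := (isCompact_DD (q := q) (F := F) p).exists_isMaxOn (DD_nonempty p)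
    (continuous_dt_left v).continuousOn
  obtain ⟨b, hb, hmin⟩ := (isCompact_DD (q := q) (F := F) p).exists_isMinOn (DD_nonempty p)
    (continuous_dt_left v).continuousOn
  refine ⟨a, b, supp_iff.2 ha, supp_iff.2 hb, fun c hc y => ?_⟩
  obtain ⟨r, hr⟩ := hv c hc
  obtain ⟨ra, hra⟩ := hv a (supp_iff.2 ha)
  obtain ⟨rb, hrb⟩ := hv b (supp_iff.2 hb)
  have h1 : dt c v ≤ dt a v := hmax (supp_iff.1 hc)
  have h2 : dt b v ≤ dt c v := hmin (supp_iff.1 hc)
  rw [vadd_eq_add] at hr hra hrb
  rw [hr, hra, add_dt, add_dt, smul_dt, smul_dt] at h1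
  rw [hr, hrb, add_dt, add_dt, smul_dt, smul_dt] at h2
  rw [hr, hra, hrb]
  simp only [add_dt, smul_dt]
  by_cases hv0 : dt v v = 0
  · have h0 : dt v y = 0 := by
      rw [dt_self_eq_zero hv0]
      simp [dt]
    rw [h0]
    simp
  have hv1 : 0 < dt v v := lt_of_le_of_ne (dt_self_nonneg v) (Ne.symm hv0)
  have h3 : r ≤ ra := le_of_mul_le_mul_right (by linarith) hv1
  have h4 : rb ≤ r := le_of_mul_le_mul_right (by linarith) hv1
  rcases le_total 0 (dt v y) with h5 | h5
  · exact le_max_of_le_left (by nlinarith)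
  · exact le_max_of_le_right (by nlinarith)

end Pool.Agent.J6H23.NX.Cover

namespace Pool.Agent.J6H23.NX

open Pool.Agent.J6H99.NX Cover
open Pool.Agent.J6H9.NX (L_zero U_L)

/-- MODULE COVER -/
theorem cover : CoverT := by
  classical
  intro hDense hPoly e he q F _ _ hFar hCor hVert N
  by_contra hcon
  have hcon' : ∀ s : Finset (E e), (∀ c ∈ s, Grad q F c) → ¬ Unc q F s N :=
    fun s hs hu => hcon ⟨s, hs, hu⟩
  obtain ⟨p, hp0, hp⟩ := cover_all N hcon'
  have hends : ∀ j, ∃ a b : E e, Supp q F a (p j) ∧ Supp q F b (p j) ∧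
      ∀ c, Supp q F c (p j) → ∀ y, dt c y ≤ max (dt a y) (dt b y) := fun j =>
    ends (p j) ((hVert (p j) (hp0 j)).trans he)
  choose a b ha hb hab using hends
  set S : Finset (E e) := Finset.univ.image a ∪ Finset.univ.image b with hS
  have haS : ∀ j, a j ∈ S := fun j =>
    Finset.mem_union_left _ (Finset.mem_image_of_mem _ (Finset.mem_univ j))
  have hbS : ∀ j, b j ∈ S := fun j =>
    Finset.mem_union_right _ (Finset.mem_image_of_mem _ (Finset.mem_univ j))
  have hlb : ∀ c ∈ S, ∀ x : V e, lf c x ≤ g q F x := by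
    intro c hc
    rcases Finset.mem_union.1 hc with h | h
    · obtain ⟨j, -, rfl⟩ := Finset.mem_image.1 h
      exact (ha j).1
    · obtain ⟨j, -, rfl⟩ := Finset.mem_image.1 h
      exact (hb j).1
  have hne : S.Nonempty := by
    obtain ⟨c, hc, -⟩ := hDense e q F hFar (fun _ => 1) (fun h => by
      have := congrFun h 0
      simp at this) 1 one_pos
    obtain ⟨j, -⟩ := hp c hc
    exact ⟨a j, haS j⟩
  refine hPoly e q F hFar hCor S hlb fun y => ?_
  obtain ⟨c, hc, hmax⟩ := S.exists_max_image (fun c => dt c y) hne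
  refine ⟨c, hc, fun δ hδ => ?_⟩
  by_cases hy : y = 0
  · subst hy
    have h1 := U_L (q := q) (F := F) (0 : E e)
    rw [L_zero] at h1
    rw [dt_zero]
    exact h1 δ hδ
  obtain ⟨c', hc', hn⟩ := hDense e q F hFar y hy δ hδ
  obtain ⟨j, hj⟩ := hp c' hc'
  have h1 := hab j c' hj y
  have h2 : dt c' y ≤ dt c y := h1.trans (max_le (hmax _ (haS j)) (hmax _ (hbS j)))
  filter_upwards [hn] with n hn
  refine hn.trans (mul_le_mul_of_nonneg_left (by linarith) (Nat.cast_nonneg n))

end Pool.Agent.J6H23.NX
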